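import Pool.Agent.L7h3.GL.Stm

/-! Project GL, part LINA. -/

namespace Pool.Agent.L7h96.GL
open Cardinal Pool.Agent.L7h3.GL

/-- the map `a ↦ x ⊔ a` is injective on the elements of `T` below `w` -/
theorem inj_sup {L : Type} [CompleteLattice L] (ρ : L → ℕ) (hρ : Rk ρ) (b x w : L) (T : Set L)
    (hT : Cv b T) (hx : x ∈ T) (hw : ¬ x ≤ w) (a a' : L) (ha : a ∈ T) (haw : a ≤ w)
    (ha' : a' ∈ T) (haw' : a' ≤ w) (h : x ⊔ a = x ⊔ a') : a = a' := by
  by_contra hne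
  have h1 : a ⋖ a ⊔ x := hρ.sm b x a (hT x hx) (hT a ha).le fun h2 => hw (h2.trans haw)
  have h2 : ¬ a' ≤ a := by
    intro h3
    rcases (hT a ha).eq_or_eq (hT a' ha').le h3 with h4 | h4
    · exact (hT a' ha').lt.ne h4.symm
    · exact hne h4.symm
  have h3 : a ⊔ a' ≤ a ⊔ x := by
    refine sup_le le_sup_left ?_
    calc a' ≤ x ⊔ a' := le_sup_right
      _ = x ⊔ a := h.symm
      _ = a ⊔ x := sup_comm _ _
  rcases h1.eq_or_eq le_sup_left h3 with h4 | h4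
  · exact h2 (le_sup_right.trans h4.le)
  · exact hw ((le_sup_right.trans h4.ge).trans (sup_le haw haw'))

theorem s_LINA : S_LINA := by
  intro L _ ρ hρ b T x w hT hx hw
  refine Cardinal.mk_le_of_injective (f := fun a : Bel T w =>
    (⟨x ⊔ a.1, a.1, a.2.1, fun h => hw (h ▸ a.2.2), rfl⟩ : Con x T)) ?_
  intro a a' h
  exact Subtype.ext (inj_sup ρ hρ b x w T hT hx hw a.1 a'.1 a.2.1 a.2.2 a'.2.1 a'.2.2
    (congrArg Subtype.val h))

end Pool.Agent.L7h96.GL
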